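import Pool.Agent.FBR.NonRunge
import Pool.Agent.FBR.Main

/-!
# MP_5df1bc_an: dilations which are not limits of rationally Runge Fatou-Bieberbach maps

`RationalInverse Ψ`: on every compact subset `Ψ (K)` of the image the inverse of `Ψ` is a uniform
limit of rational maps without poles on `Ψ (K)`; this holds for every biholomorphic `Ψ` of `ℂⁿ` onto
a domain on which the holomorphic functions are limits of rational functions.
-/

set_option autoImplicit false

namespace Pool.Agent.Results.MP_5df1bc_an.NoRationallyRungeLimit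

open Pool.Agent.FBR

/-- For every `n ≥ 2` there is a normalised univalent map `f` of the unit ball of `ℂⁿ` with non-Runge
image such that for `2/3 < r² < 1` the map `z ↦ f (r z) / r` is not a limit, uniformly on the compact
subsets of the ball, of injective entire maps whose inverses are limits of rational maps. -/
theorem result :
    ∀ n : ℕ, 2 ≤ n →
    ∃ f : (Fin n → ℂ) → (Fin n → ℂ),
      DifferentiableOn ℂ f {z : Fin n → ℂ | ∑ i, ‖z i‖ ^ 2 < 1} ∧
      Set.InjOn f {z : Fin n → ℂ | ∑ i, ‖z i‖ ^ 2 < 1} ∧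
      f 0 = 0 ∧
      fderiv ℂ f 0 = ContinuousLinearMap.id ℂ (Fin n → ℂ) ∧
      ¬ (∀ g : (Fin n → ℂ) → ℂ,
          DifferentiableOn ℂ g (f '' {z : Fin n → ℂ | ∑ i, ‖z i‖ ^ 2 < 1}) →
          ∀ K : Set (Fin n → ℂ), K ⊆ f '' {z : Fin n → ℂ | ∑ i, ‖z i‖ ^ 2 < 1} →
            IsCompact K →
            ∀ ε : ℝ, 0 < ε →
              ∃ p : MvPolynomial (Fin n) ℂ, ∀ z ∈ K, ‖g z - MvPolynomial.eval z p‖ < ε) ∧
      ∀ r : ℝ, 0 < r → r < 1 → 2 / 3 < r ^ 2 →
        ¬ ∃ Ψ : ℕ → (Fin n → ℂ) → (Fin n → ℂ),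
          (∀ k, Differentiable ℂ (Ψ k) ∧ Function.Injective (Ψ k) ∧ RationalInverse (Ψ k)) ∧
          ∀ K : Set (Fin n → ℂ), K ⊆ {z : Fin n → ℂ | ∑ i, ‖z i‖ ^ 2 < 1} → IsCompact K →
            TendstoUniformlyOn Ψ (fun z => ((r : ℂ)⁻¹) • f ((r : ℂ) • z)) Filter.atTop K := by
  intro n hn
  obtain ⟨m, rfl⟩ : ∃ m, n = m + 2 := ⟨n - 2, by omega⟩
  refine ⟨ff m, (ff_diff m).differentiableOn, ff_injOn m, ff_zero m, ff_fderiv_zero m,
    not_runge m, ?_⟩
  rintro r h0 h1 h2 ⟨Ψ, hΨ, hlim⟩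
  exact no_limit_dil m h0 h1 h2 hΨ hlim

end Pool.Agent.Results.MP_5df1bc_an.NoRationallyRungeLimit
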